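import Pool.Agent.QSN.StmtsA

/-!
# Squad QSN, row CVM (copy of Helper15_QSX/CHV.lean)
-/

set_option autoImplicit false

namespace Pool.Agent.QSN.H23

open Matrix Finset Pool.Agent.QSX Pool.Agent.QSN

theorem cvm_su_e {X : Dat} (hX : MRS X) (l : hX.ι) (x : ℝ) : SU (x • hX.e l) := by
  have h : hX.e l ∈ X.n := by
    rw [← hX.span_e]
    exact Submodule.subset_span ⟨l, rfl⟩
  exact (X.su _ h).smul x

/-- The roots `rt l`, `rt l'` are linearly independent. -/
theorem cvm_indep {X : Dat} (hX : MRS X) {l l' : hX.ι} (hne : hX.rt l ≠ hX.rt l') {α β : ℝ}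
    (h : ∀ a, α * hX.rt l a + β * hX.rt l' a = 0) : α = 0 ∧ β = 0 := by
  have h1 : α = 0 := by
    by_contra hα
    apply hX.nonprop l l' hne (-β / α)
    apply LinearMap.ext
    intro a
    rw [LinearMap.smul_apply, smul_eq_mul]
    have := h a
    field_simp
    linarith
  refine ⟨h1, ?_⟩
  obtain ⟨a, ha⟩ := hX.pos
  have h2 := h a
  rw [h1, zero_mul, zero_add] at h2
  rcases mul_eq_zero.1 h2 with h3 | h3
  · exact h3
  · exact absurd h3 (ha l').ne'

theorem cvm_list_ex (hC : CcmStmt) (hD : CdmStmt) {X : Dat} (hX : MRS X) (l l' : hX.ι)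
    (hne : hX.rt l ≠ hX.rt l') : ∃ L : List (hX.ι × ℕ × ℕ × ℚ),
      (∀ t ∈ L, 1 ≤ t.2.1 ∧ 1 ≤ t.2.2.1 ∧
        hX.rt t.1 = (t.2.1 : ℝ) • hX.rt l + (t.2.2.1 : ℝ) • hX.rt l') ∧
      (L.map fun t => t.1).Nodup ∧
      ∀ x y : ℝ, ue (x • hX.e l) * ue (y • hX.e l') * (ue (x • hX.e l))⁻¹ * (ue (y • hX.e l'))⁻¹ =
        (L.map fun t => ue (((t.2.2.2 : ℝ) * x ^ t.2.1 * y ^ t.2.2.1) • hX.e t.1)).prod := by
  obtain ⟨G, hG, hGe⟩ := (hC X hX l l').2.2
  obtain ⟨L, h1, h2, h3⟩ := hD X hX l l' hne G hG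
  refine ⟨L, h1, h2, fun x y => ?_⟩
  apply Units.ext
  rw [Units.val_mul, Units.val_mul, Units.val_mul, ue_val (cvm_su_e hX l x),
    ue_val (cvm_su_e hX l' y), ue_inv_val (cvm_su_e hX l x), ue_inv_val (cvm_su_e hX l' y), ← hGe,
    h3 x y]
  have h4 := map_list_prod (Units.coeHom (Matrix (Fin X.m) (Fin X.m) ℝ))
    (L.map fun t => ue (((t.2.2.2 : ℝ) * x ^ t.2.1 * y ^ t.2.2.1) • hX.e t.1))
  rw [Units.coeHom_apply, List.map_map] at h4
  rw [h4]
  congr 1
  apply List.map_congr_left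
  intro t _
  rw [Function.comp_apply, Units.coeHom_apply, ue_val (cvm_su_e hX t.1 _)]

/-- The components of the roots in a commutator. -/
theorem cvm_comp_eq {X : Dat} (hX : MRS X) {l l' t : hX.ι} (hne : hX.rt l ≠ hX.rt l') {p q : ℕ}
    (hp : 1 ≤ p) (hq : 1 ≤ q) (h : hX.rt t = (p : ℝ) • hX.rt l + (q : ℝ) • hX.rt l') :
    hX.comp t = hX.comp l ∧ hX.comp t = hX.comp l' := by
  classical
  have key : ∀ κ : hX.J → ℝ, (∀ j, 0 < κ j) →
      κ (hX.comp t) = κ (hX.comp l) ∧ κ (hX.comp t) = κ (hX.comp l') := by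
    intro κ hκ
    obtain ⟨S, hS⟩ := hX.scal κ hκ
    have h1 : ∀ a, ((κ (hX.comp t) - κ (hX.comp l)) * p) * hX.rt l a +
        ((κ (hX.comp t) - κ (hX.comp l')) * q) * hX.rt l' a = 0 := by
      intro a
      have e1 := hS t a
      have e2 : ∀ b, hX.rt t b = p * hX.rt l b + q * hX.rt l' b := by
        intro b
        rw [h, LinearMap.add_apply, LinearMap.smul_apply, LinearMap.smul_apply, smul_eq_mul,
          smul_eq_mul]
      rw [e2 a, e2 (S a), hS l a, hS l' a] at e1
      linarith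
    obtain ⟨h2, h3⟩ := cvm_indep hX hne h1
    have hp' : (p : ℝ) ≠ 0 := by
      have : (0 : ℝ) < p := by exact_mod_cast hp
      exact this.ne'
    have hq' : (q : ℝ) ≠ 0 := by
      have : (0 : ℝ) < q := by exact_mod_cast hq
      exact this.ne'
    constructor
    · have := (mul_eq_zero.1 h2).resolve_right hp'
      linarith
    · have := (mul_eq_zero.1 h3).resolve_right hq'
      linarith
  have hpos : ∀ j₀ : hX.J, ∀ j, (0 : ℝ) < (fun j => if j = j₀ then (2 : ℝ) else 1) j := by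
    intro j₀ j
    simp only
    split_ifs <;> norm_num
  constructor
  · have h1 := (key _ (hpos (hX.comp l))).1
    simp only [if_true] at h1
    by_contra hc
    rw [if_neg hc] at h1
    norm_num at h1
  · have h1 := (key _ (hpos (hX.comp l'))).2
    simp only [if_true] at h1
    by_contra hc
    rw [if_neg hc] at h1
    norm_num at h1

/-- brackets of rational matrices are rational -/
theorem cvm_rat {X : Dat} (hX : MRS X) (w w' : hX.ι) (i j : Fin X.m) :
    ∃ q : ℚ, (hX.e w * hX.e w' - hX.e w' * hX.e w) i j = (q : ℝ) := by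
  choose f hf using hX.rat
  refine ⟨∑ k, f w i k * f w' k j - ∑ k, f w' i k * f w k j, ?_⟩
  rw [Matrix.sub_apply, Matrix.mul_apply, Matrix.mul_apply]
  push_cast
  simp only [hf]

/-- choice of the root vectors in a list of brackets -/
theorem cvm_lift {X : Dat} (hX : MRS X) (t' : hX.ι) :
    ∀ W : List (Matrix (Fin X.m) (Fin X.m) ℝ × ℚ),
    (∀ x ∈ W, x.1 ∈ {z | ∃ w w', hX.rt w ≠ hX.rt w' ∧ hX.rt w + hX.rt w' = hX.rt t' ∧
      z = hX.e w * hX.e w' - hX.e w' * hX.e w}) →
    ∃ V : List (hX.ι × hX.ι × ℚ),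
      (∀ w ∈ V, hX.rt w.1 ≠ hX.rt w.2.1 ∧ hX.rt w.1 + hX.rt w.2.1 = hX.rt t') ∧
      (W.map fun x => ((x.2 : ℚ) : ℝ) • x.1).sum =
        (V.map fun w => (w.2.2 : ℝ) •
          (hX.e w.1 * hX.e w.2.1 - hX.e w.2.1 * hX.e w.1)).sum := by
  intro W
  induction W with
  | nil =>
    intro _
    exact ⟨[], fun w hw => absurd hw List.not_mem_nil, rfl⟩
  | cons x W ih =>
    intro h
    obtain ⟨V, h1, h2⟩ := ih (fun y hy => h y (List.mem_cons_of_mem _ hy))
    obtain ⟨w, w', h3, h4, h5⟩ := h x List.mem_cons_self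
    refine ⟨(w, w', x.2) :: V, fun y hy => ?_, ?_⟩
    · rcases List.mem_cons.1 hy with rfl | hy
      · exact ⟨h3, h4⟩
      · exact h1 y hy
    · rw [List.map_cons, List.map_cons, List.sum_cons, List.sum_cons, h2, h5]

/-- **CVM**. -/
theorem cvm (hA : CamStmt) (hC : CcmStmt) (hD : CdmStmt) : CvmStmt := by
  rintro X ⟨hX⟩
  have hL : ∀ l l' : hX.ι, ∃ L : List (hX.ι × ℕ × ℕ × ℚ),
      (hX.rt l = hX.rt l' → L = []) ∧
      (∀ t ∈ L, 1 ≤ t.2.1 ∧ 1 ≤ t.2.2.1 ∧
        hX.rt t.1 = (t.2.1 : ℝ) • hX.rt l + (t.2.2.1 : ℝ) • hX.rt l') ∧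
      (L.map fun t => t.1).Nodup ∧
      (hX.rt l ≠ hX.rt l' → ∀ x y : ℝ,
        ue (x • hX.e l) * ue (y • hX.e l') * (ue (x • hX.e l))⁻¹ * (ue (y • hX.e l'))⁻¹ =
        (L.map fun t => ue (((t.2.2.2 : ℝ) * x ^ t.2.1 * y ^ t.2.2.1) • hX.e t.1)).prod) := by
    intro l l'
    by_cases h : hX.rt l = hX.rt l'
    · refine ⟨[], fun _ => rfl, fun t ht => ?_, ?_, fun hne => absurd h hne⟩
      · exact absurd ht List.not_mem_nil
      · exact List.nodup_nil
    · obtain ⟨L, h1, h2, h3⟩ := cvm_list_ex hC hD hX l l' h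
      exact ⟨L, fun he => absurd he h, h1, h2, fun _ => h3⟩
  choose L hL0 hL1 hL2 hL3 using hL
  exact ⟨{ ι := hX.ι
           fin := hX.fin
           dec := hX.dec
           e := hX.e
           span_e := hX.span_e
           lin := hX.lin
           rt := hX.rt
           wt := hX.wt
           pos := hX.pos
           sep := hX.sep
           nonprop := hX.nonprop
           L := L
           L_rt := hL1
           L_nodup := hL2
           com := hL3
           gen := by
             intro l l' hne t ht t' htt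
             obtain ⟨hp, hq, hr⟩ := hL1 l l' t ht
             have h1 := hX.gen t' l l' hne t.2.1 t.2.2.1 hp hq (htt.trans hr)
             obtain ⟨W, hW, hWe⟩ := hA X.m _ (hX.e t') (by
               rintro z ⟨w, w', -, -, rfl⟩ i j
               exact cvm_rat hX w w' i j) (hX.rat t') h1
             obtain ⟨V, h2, h3⟩ := cvm_lift hX t' W hW
             exact ⟨V, h2, hWe.trans h3⟩
           J := hX.J
           comp := hX.comp
           top := hX.top
           comp_top := hX.comp_top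
           comp_rt := hX.comp_rt
           L_comp := by
             intro l l' t ht
             have hne : hX.rt l ≠ hX.rt l' := by
               intro he
               rw [hL0 l l' he] at ht
               exact absurd ht List.not_mem_nil
             obtain ⟨hp, hq, hr⟩ := hL1 l l' t ht
             exact cvm_comp_eq hX hne hp hq hr
           climb := hX.climb
           rank1 := hX.rank1
           scal := hX.scal }⟩

end Pool.Agent.QSN.H23
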